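import Pool.Agent.K4H37.FT.Main

set_option autoImplicit false

/-!
# Generation of projective class groups by subgroups in characteristic zero and large characteristic
-/

namespace Pool.Agent.Results.MP_b6f35e_al.CharacteristicTransfer

open Matrix

/-- A class of groups closed under homomorphic images. -/
def QuotientClosed (C : ∀ (F : Type) [Group F], Prop) : Prop :=
  ∀ (F Q : Type) [Group F] [Group Q] (f : F →* Q), Function.Surjective f → C F → C Q

/-- The total number of nonzero coefficients of the entries of a matrix over `K[G]`. -/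
def size {K G : Type} [CommRing K] [Group G] {κ ι : Type} [Fintype κ] [Fintype ι]
    (A : Matrix κ ι (MonoidAlgebra K G)) : ℕ :=
  ∑ i, ∑ j, (A i j).coeff.support.card

/-- The entries of the matrix are linear combinations of elements of `F`. -/
def SupportedIn {K G : Type} [CommRing K] [Group G] {κ ι : Type} (F : Finset G)
    (A : Matrix κ ι (MonoidAlgebra K G)) : Prop :=
  ∀ i j, (A i j).coeff.support ⊆ F

/-- The matrix `A` over `K[G]` is block diagonal with blocks over the subgroups `β p`: each index `p`
has a subgroup `β p`; the entry `A p q` is zero if `β p ≠ β q` and lies in `K[β p]` if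
`β p = β q`. -/
def BlocksOver {K G : Type} [CommRing K] [Group G] {m : ℕ} (β : Fin m → Subgroup G)
    (A : Matrix (Fin m) (Fin m) (MonoidAlgebra K G)) : Prop :=
  ∀ p q g, (A p q).coeff g ≠ 0 → β p = β q ∧ g ∈ β p

/-- The idempotent matrix `E` over `K[G]` is stably induced from the subgroups in `Φ`: for some `k`
the projective module of `E ⊕ 1_k` is isomorphic (by `X` and `Y`) to the module of an idempotent
matrix `Y X` which is block diagonal with blocks over subgroups in `Φ`. -/
def StablyInduced {K G : Type} [CommRing K] [Group G] {n : ℕ} (Φ : Set (Subgroup G))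
    (E : Matrix (Fin n) (Fin n) (MonoidAlgebra K G)) : Prop :=
  ∃ (k m : ℕ) (β : Fin m → Subgroup G) (X : Matrix (Fin n ⊕ Fin k) (Fin m) (MonoidAlgebra K G))
    (Y : Matrix (Fin m) (Fin n ⊕ Fin k) (MonoidAlgebra K G)),
    (∀ p, β p ∈ Φ) ∧ BlocksOver β (Y * X) ∧
    X * Y = Matrix.fromBlocks E 0 0 1 ∧ (Y * X) * (Y * X) = Y * X

/-- `K_0(K[G])` is generated by the images of the groups `K_0(K[H])`, `H ∈ Φ`, and `[K[G]]`, in the
strong form that all idempotent matrices are stably induced from the subgroups in `Φ`. -/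
def KZeroGenerated (K G : Type) [CommRing K] [Group G] (Φ : Set (Subgroup G)) : Prop :=
  ∀ (n : ℕ) (E : Matrix (Fin n) (Fin n) (MonoidAlgebra K G)), E * E = E → StablyInduced Φ E

/-- A certificate of size `N` for `StablyInduced Φ E`: the numbers `k` and `m` and the numbers of
nonzero coefficients of `X` and `Y` are at most `N`. -/
def Certificate {K G : Type} [CommRing K] [Group G] {n : ℕ} (Φ : Set (Subgroup G)) (N : ℕ)
    (E : Matrix (Fin n) (Fin n) (MonoidAlgebra K G)) : Prop :=
  ∃ (k m : ℕ) (β : Fin m → Subgroup G) (X : Matrix (Fin n ⊕ Fin k) (Fin m) (MonoidAlgebra K G))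
    (Y : Matrix (Fin m) (Fin n ⊕ Fin k) (MonoidAlgebra K G)),
    k ≤ N ∧ m ≤ N ∧ size X ≤ N ∧ size Y ≤ N ∧ (∀ p, β p ∈ Φ) ∧ BlocksOver β (Y * X) ∧
    X * Y = Matrix.fromBlocks E 0 0 1 ∧ (Y * X) * (Y * X) = Y * X

/-- A certificate for `StablyInduced Φ E` in which `k` and `m` are at most `N` and the entries of `X`
and `Y` are linear combinations of elements of `F`. -/
def CertificateIn {K G : Type} [CommRing K] [Group G] {n : ℕ} (Φ : Set (Subgroup G))
    (F : Finset G) (N : ℕ) (E : Matrix (Fin n) (Fin n) (MonoidAlgebra K G)) : Prop :=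
  ∃ (k m : ℕ) (β : Fin m → Subgroup G) (X : Matrix (Fin n ⊕ Fin k) (Fin m) (MonoidAlgebra K G))
    (Y : Matrix (Fin m) (Fin n ⊕ Fin k) (MonoidAlgebra K G)),
    k ≤ N ∧ m ≤ N ∧ SupportedIn F X ∧ SupportedIn F Y ∧ (∀ p, β p ∈ Φ) ∧ BlocksOver β (Y * X) ∧
    X * Y = Matrix.fromBlocks E 0 0 1 ∧ (Y * X) * (Y * X) = Y * X

/-- The subgroups of `G` which belong to the class `C`. -/
def subgroupsIn (C : ∀ (F : Type) [Group F], Prop) (G : Type) [Group G] : Set (Subgroup G) :=
  {H | C H}

/-- The subgroups of `G` which are homomorphic images of some `B i`. -/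
def images {ι : Type} (B : ι → Type) [∀ i, Group (B i)] (G : Type) [Group G] :
    Set (Subgroup G) :=
  {H | ∃ (i : ι) (α : B i →* G), α.range = H}

/-- **Transfer between characteristic zero and large characteristic.**

(A) For every group `G` and every set `Φ` of subgroups of `G` the following are equivalent:

(1) `K_0(ℂ[G])` is generated from `Φ`;

(2) `K_0(K[G])` is generated from `Φ` for all algebraically closed fields `K` of characteristic
zero;

(3) for every `n` and every finite `F ⊆ G` there are a finite `Ψ ⊆ Φ`, a finite `F' ⊆ G` and `N` such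
that over every algebraically closed field of characteristic `0` or at least `N` each idempotent
`n × n` matrix supported in `F` has a certificate with subgroups in `Ψ`, supports in `F'` and
`k, m ≤ N`;

(4) for every `n` and every finite `F ⊆ G` there is `N` such that for infinitely many primes `p` each
idempotent `n × n` matrix supported in `F` over the group algebra of `G` over the algebraic closure
of the field with `p` elements has a certificate of size `N` with subgroups in `Φ`.

(B) For every class `C` of groups closed under homomorphic images the following are equivalent: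

(1) for every group `G`, `K_0(ℂ[G])` is generated from the subgroups in `C`;

(2) for every `s` there are finitely many groups `B i` in `C` and `N` such that for every
algebraically closed field `K` of characteristic `0` or at least `N`, every group `G` and every
`n ≤ s`, each idempotent `n × n` matrix over `K[G]` with at most `s` nonzero coefficients has a
certificate of size `N` with subgroups which are homomorphic images of the groups `B i`;

(3) for every `s` there is `N` such that for infinitely many primes `p`, every group `G` and every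
`n ≤ s`, each idempotent `n × n` matrix with at most `s` nonzero coefficients over the group algebra of
`G` over the algebraic closure of the field with `p` elements has a certificate of size `N` with
subgroups in `C`.

(C) Let `C` be such a class and `P` a set of characteristics which is finite or contains `0`. Then
for all groups `G` and all algebraically closed fields `K` with characteristic in `P`, `K_0(K[G])` is
generated from the subgroups in `C`, if and only if this holds with uniform bounds as in (B)(2). -/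
theorem result :
    (∀ (G : Type) [Group G] (Φ : Set (Subgroup G)),
      [KZeroGenerated ℂ G Φ,
        ∀ (K : Type) [Field K] [IsAlgClosed K] [CharZero K], KZeroGenerated K G Φ,
        ∀ (n : ℕ) (F : Finset G), ∃ (Ψ : Finset (Subgroup G)) (F' : Finset G) (N : ℕ),
          (Ψ : Set (Subgroup G)) ⊆ Φ ∧
          ∀ (K : Type) [Field K] [IsAlgClosed K] (p : ℕ) [CharP K p], (p = 0 ∨ N ≤ p) →
          ∀ E : Matrix (Fin n) (Fin n) (MonoidAlgebra K G), SupportedIn F E → E * E = E →
            CertificateIn (Ψ : Set (Subgroup G)) F' N E,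
        ∀ (n : ℕ) (F : Finset G), ∃ N : ℕ, ∀ m : ℕ, ∃ (p : ℕ) (_ : Fact p.Prime), m < p ∧
          ∀ E : Matrix (Fin n) (Fin n) (MonoidAlgebra (AlgebraicClosure (ZMod p)) G),
            SupportedIn F E → E * E = E → Certificate Φ N E].TFAE) ∧
    ∀ C : ∀ (F : Type) [Group F], Prop, QuotientClosed C →
      [∀ (G : Type) [Group G], KZeroGenerated ℂ G (subgroupsIn C G),
        ∀ s : ℕ, ∃ (ι : Type) (_ : Finite ι) (B : ι → Type) (_ : ∀ i, Group (B i)) (N : ℕ),
          (∀ i, C (B i)) ∧ ∀ (K : Type) [Field K] [IsAlgClosed K] (p : ℕ) [CharP K p],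
            (p = 0 ∨ N ≤ p) → ∀ (G : Type) [Group G] (n : ℕ), n ≤ s →
            ∀ E : Matrix (Fin n) (Fin n) (MonoidAlgebra K G), E * E = E → size E ≤ s →
              Certificate (images B G) N E,
        ∀ s : ℕ, ∃ N : ℕ, ∀ m : ℕ, ∃ (p : ℕ) (_ : Fact p.Prime), m < p ∧
          ∀ (G : Type) [Group G] (n : ℕ), n ≤ s →
          ∀ E : Matrix (Fin n) (Fin n) (MonoidAlgebra (AlgebraicClosure (ZMod p)) G),
            E * E = E → size E ≤ s → Certificate (subgroupsIn C G) N E].TFAE ∧
      ∀ P : Set ℕ, (P.Finite ∨ 0 ∈ P) →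
        ((∀ (K : Type) [Field K] [IsAlgClosed K], (∃ p ∈ P, CharP K p) →
            ∀ (G : Type) [Group G], KZeroGenerated K G (subgroupsIn C G)) ↔
          ∀ s : ℕ, ∃ (ι : Type) (_ : Finite ι) (B : ι → Type) (_ : ∀ i, Group (B i)) (N : ℕ),
            (∀ i, C (B i)) ∧ ∀ (K : Type) [Field K] [IsAlgClosed K], (∃ p ∈ P, CharP K p) →
              ∀ (G : Type) [Group G] (n : ℕ), n ≤ s →
              ∀ E : Matrix (Fin n) (Fin n) (MonoidAlgebra K G), E * E = E → size E ≤ s →
                Certificate (images B G) N E) := by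
  classical
  open Pool.Agent.K4H37.TC Pool.Agent.K4H37.FT in
  have key : ∀ (G : Type) [Group G] (Φ : Set (Subgroup G)), KZeroGenerated ℂ G Φ →
      ∀ (J : Type) (K : J → Type) [∀ i, Field (K i)] (U : Ultrafilter J), (∀ i, Good0 0 (K i)) →
      (∀ m, ∀ᶠ i in (U : Filter J), Good0 m (K i)) → Gen (Ult K U) G Φ := by
    intro G _ Φ h J K _ U h0 h1
    obtain ⟨_, _⟩ := good0_ult K U h0 h1
    exact Pool.Agent.K4H37.FT.complex_all Φ h
  have himg : ∀ (C : ∀ (F : Type) [Group F], Prop), QuotientClosed C → ∀ {ι : Type} (B : ι → Type)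
      [∀ i, Group (B i)], (∀ i, C (B i)) → ∀ (G : Type) [Group G],
      images B G ⊆ subgroupsIn C G := by
    intro C hC ι B _ hB G _ H hH
    obtain ⟨i, α, rfl⟩ := hH
    exact hC _ _ α.rangeRestrict α.rangeRestrict_surjective (hB i)
  refine ⟨fun G _ Φ => ?_, fun C hC => ⟨?_, ?_⟩⟩
  · tfae_have 1 → 2 := fun h K _ _ _ => Pool.Agent.K4H37.FT.complex_all Φ h
    tfae_have 2 → 1 := fun h => h ℂ
    tfae_have 1 → 3 := by
      intro h n F
      obtain ⟨Ψ, F', N, hΨ, h1⟩ := Pool.Agent.K4H37.FT.fixed Pool.Agent.K4H37.TC.Good0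
        Pool.Agent.K4H37.TC.Good0.anti Φ (key G Φ h) n F
      exact ⟨Ψ, F', N, hΨ, fun K _ _ p _ hp E hF hE =>
        h1 K (Pool.Agent.K4H37.TC.good0_char p hp) E hF hE⟩
    tfae_have 3 → 4 := by
      intro h n F
      obtain ⟨Ψ, F', N, hΨ, h1⟩ := h n F
      refine ⟨N + (n + N) * N * F'.card, fun m => ?_⟩
      obtain ⟨p, hp1, hp2⟩ := Nat.exists_infinite_primes (N + m + 1)
      have hp : Fact p.Prime := ⟨hp2⟩
      have hcp : CharP (AlgebraicClosure (ZMod p)) p :=
        charP_of_injective_algebraMap (algebraMap (ZMod p) _).injective p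
      refine ⟨p, hp, by omega, fun E hF hE => ?_⟩
      have h2 : Pool.Agent.K4H37.FT.CertF (Ψ : Set (Subgroup G)) F' N E :=
        h1 _ p (Or.inr (by omega)) E hF hE
      exact h2.cert.mono hΨ le_rfl
    tfae_have 4 → 2 := fun h K _ _ _ => Pool.Agent.K4H37.FT.fpbar_all Φ h
    tfae_finish
  · tfae_have 1 → 2 := by
      intro h s
      obtain ⟨ι, hι, B, iB, N, hB, h1⟩ := Pool.Agent.K4H37.FT.uniform
        Pool.Agent.K4H37.TC.Good0 Pool.Agent.K4H37.TC.Good0.anti C
        (fun J K _ U h0 h1 G _ => key G _ (h G) J K U h0 h1) s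
      exact ⟨ι, hι, B, iB, N, hB, fun K _ _ p _ hp G _ n hn E hE hs =>
        h1 K (Pool.Agent.K4H37.TC.good0_char p hp) G n hn E hE hs⟩
    tfae_have 2 → 3 := by
      intro h s
      obtain ⟨ι, hι, B, iB, N, hB, h1⟩ := h s
      refine ⟨N, fun m => ?_⟩
      obtain ⟨p, hp1, hp2⟩ := Nat.exists_infinite_primes (N + m + 1)
      have hp : Fact p.Prime := ⟨hp2⟩
      have hcp : CharP (AlgebraicClosure (ZMod p)) p :=
        charP_of_injective_algebraMap (algebraMap (ZMod p) _).injective p
      refine ⟨p, hp, by omega, fun G _ n hn E hE hs => ?_⟩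
      have h2 : Pool.Agent.K4H37.FT.Cert (images B G) N E :=
        h1 _ p (Or.inr (by omega)) G n hn E hE hs
      exact h2.mono (himg C hC B hB G) le_rfl
    tfae_have 3 → 1 := by
      intro h G _
      apply Pool.Agent.K4H37.FT.fpbar_all
      intro n F
      obtain ⟨N, h1⟩ := h (n + n * n * F.card)
      refine ⟨N, fun m => ?_⟩
      obtain ⟨p, hp, hmp, h2⟩ := h1 m
      refine ⟨p, hp, hmp, fun E hF hE => h2 G n (Nat.le_add_right _ _) E hE ?_⟩
      refine le_trans ?_ (Nat.le_add_left _ _)
      calc size E ≤ ∑ _i : Fin n, ∑ _j : Fin n, F.card :=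
            Finset.sum_le_sum fun i _ => Finset.sum_le_sum fun j _ => Finset.card_le_card (hF i j)
        _ = n * n * F.card := by simp [mul_assoc]
    tfae_finish
  · intro P hP
    constructor
    · intro h s
      obtain ⟨ι, hι, B, iB, N, hB, h1⟩ := Pool.Agent.K4H37.FT.uniform
        (Pool.Agent.K4H37.TC.GoodP P) (fun _ _ _ _ _ h => h) C (fun J K _ U h0 _ G _ => by
          obtain ⟨_, h2⟩ := Pool.Agent.K4H37.TC.goodP_ult P hP.symm K U h0
          exact h _ h2 G) s
      exact ⟨ι, hι, B, iB, N, hB, fun K _ hK hc G _ n hn E hE hs =>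
        h1 K ⟨hK, hc⟩ G n hn E hE hs⟩
    · intro h K _ _ hc G _ n E hE
      obtain ⟨ι, hι, B, iB, N, hB, h1⟩ := h (n + size E)
      have h2 : Pool.Agent.K4H37.FT.Cert (images B G) N E :=
        h1 K hc G n (Nat.le_add_right _ _) E hE (Nat.le_add_left _ _)
      exact (Pool.Agent.K4H37.FT.ind_iff _ E).2 ⟨N, h2.mono (himg C hC B hB G) le_rfl⟩

end Pool.Agent.Results.MP_b6f35e_al.CharacteristicTransfer
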