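import Pool.Agent.K4H2.GT.Z
import Pool.Agent.K4H2.GT.Alg

/-!
# `GL₂` of polynomial rings in any number of variables and the Farrell–Jones conjecture

`C` is any class of groups with the closure properties `ClosedE C`, all of which are known for the class
of the groups that satisfy the K- and L-theoretic Farrell–Jones conjecture (with coefficients in additive
categories and finite wreath products).

(1) If `A` is an integral domain such that `GL₂(A)` is in `C`, then `GL₂(A[x_i, i ∈ I])` is in `C` for every
set `I`. (2) `GL₂(ℤ[x_i, i ∈ I])` is in `C` for every set `I`. (3) If `k` is a field such that `GL₂(K)` is in `C` for
all finite extensions `K` of `k`, then `GL₂(R)` is in `C` for every commutative `k`-algebra `R` without zero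
divisors that has a degree function whose pieces are finite dimensional; for instance for the ring of
the regular functions on the complement of an irreducible divisor of a projective variety, such as an
affine curve with one place at infinity, and for `k[x_1, …, x_n]/(f)` when the leading form of `f` is
irreducible.

Outline of the proof. Let `R` be a domain with a degree function, `F` its field of fractions and `ν` the
discrete valuation of `F` given by minus the degree.

* `GL₂(R)` acts on the tree of the classes of lattices in `F²` (the cosets of the stabilizer `K` of the
  standard class). A vertex is a ball of `F`, its neighbour of the next lower level is the ball of the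
  next larger radius; every vertex has only one neighbour of lower level and any two balls are
  contained in a third one, so the graph is a tree. The entries of the matrices that fix a given vertex
  have bounded degree.
* Let `H` act on a tree with a 2-colouring which is preserved, and let `φ` be a homomorphism from `H` to a
  group `P`. Let `X` be the set of the orbits of the edges under the kernel of `φ` (translated by `P`). The
  words of the labels of the paths from a vertex `v` to `h v` define a homomorphism from `H` to the
  semidirect product of the free group `F(X)` with `P`. It is injective when `φ` is injective on the
  stabilizers of the vertices, because the labels of a path without backtracking form a reduced word. For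
  a group `H` generated by a finite set `S` it is enough that `φ` is injective on the stabilizers of the
  vertices of the paths from `v` to `s v`, `s ∈ S`.
* For polynomials over an infinite domain `A`, evaluation at finitely many points is injective on the
  polynomials of bounded degree (in finitely many variables). So every finitely generated subgroup of
  `GL₂(A[x_i])` embeds in the semidirect product of a free group with a finite power of `GL₂(A)` which
  permutes a basis. These semidirect products are in `C`. If `A` is finite, then it is replaced by an
  algebraic closure, whose `GL₂` is locally finite.
* In (3) finite dimensional subspaces of finitely generated subalgebras are separated by finitely many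
  closed points.
* `GL₂(ℤ)` has a free subgroup of finite index, so it is in `C`.
-/

set_option autoImplicit false

namespace Pool.Agent.Results.MP_b6f35e_al.GLTwoPolynomialRings

open Pool.Agent.Y110.FJ

/-- `d` is a degree function on the `k`-algebra `R` such that the elements of bounded degree lie in finite
dimensional subspaces. The value of `d` at `0` is irrelevant. -/
structure IsDegreeFunction (k R : Type) [Field k] [CommRing R] [Algebra k R] (d : R → ℕ) : Prop where
  mul : ∀ a b, a ≠ 0 → b ≠ 0 → d (a * b) = d a + d b
  add : ∀ a b, a ≠ 0 → b ≠ 0 → a + b ≠ 0 → d (a + b) ≤ max (d a) (d b)
  fin : ∀ m : ℕ, ∃ V : Submodule k R, FiniteDimensional k V ∧ ∀ a, d a ≤ m → a ∈ V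

/-- Let `C` be a class of groups with the closure properties `ClosedE C` of the class of the groups that
satisfy the Farrell–Jones conjecture. (1) For every integral domain `A` with `GL₂(A)` in `C` and every set
`I` of variables, `GL₂` of the polynomial ring `A[x_i, i ∈ I]` is in `C`. (2) `GL₂(ℤ[x_i, i ∈ I])` is in `C` for
every set `I`. (3) Let `k` be a field such that `GL₂(K)` is in `C` for all finite extensions `K` of `k`. Then
`GL₂(R)` is in `C` for every integral domain `R` over `k` with a degree function with finite dimensional
pieces. -/
theorem result (C : ∀ (G : Type) [Group G], Prop) (hC : ClosedE C) :
    (∀ (A : Type) [CommRing A] [IsDomain A], C (GL (Fin 2) A) →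
      ∀ I : Type, C (GL (Fin 2) (MvPolynomial I A))) ∧
    (∀ I : Type, C (GL (Fin 2) (MvPolynomial I ℤ))) ∧
    ∀ (k : Type) [Field k],
      (∀ (K : Type) [Field K] [Algebra k K], FiniteDimensional k K → C (GL (Fin 2) K)) →
      ∀ (R : Type) [CommRing R] [IsDomain R] [Algebra k R] (d : R → ℕ), IsDegreeFunction k R d →
        C (GL (Fin 2) R) :=
  ⟨fun A _ _ hA I => Pool.Agent.K4H2.GT.poly hC A hA I,
    fun I => Pool.Agent.K4H2.GT.poly hC ℤ (Pool.Agent.K4H2.GT.gl_int hC.base) I,
    fun k _ hk R _ _ _ d hd => Pool.Agent.K4H2.GT.alg hC k hk R ⟨d, hd.mul, hd.add⟩ hd.fin⟩

end Pool.Agent.Results.MP_b6f35e_al.GLTwoPolynomialRings
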