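import Pool.Agent.K4H2.GT.HMain

/-!
# Isometry groups of Witt index one over polynomial rings and the Farrell–Jones conjecture

`C` is any class of groups with the closure properties `ClosedE C`, all of which are known for the class
of the groups that satisfy the K- and L-theoretic Farrell–Jones conjecture (with coefficients in additive
categories and finite wreath products).

Let `B` be an infinite integral domain with an involution `σ`, possibly trivial, and let `M` be a hermitian
matrix over `B` which over some field `K ⊇ B` (with an involution that extends `σ`) is isometric to the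
orthogonal sum of a hyperbolic plane and an anisotropic hermitian form. If the isometry group `U(M)(B)` is in
`C`, then so is the isometry group `U(M)(B[x_i, i ∈ I])` for every set `I` of variables.

For `B = ℤ` and `K = ℝ` the hypothesis on `M` says that `M` is a symmetric integral matrix of signature
`(n + 1, 1)` up to sign, and `U(M)(ℤ)` is an arithmetic lattice in `O(n + 1, 1)`; for `B` an order of an
imaginary quadratic field and `K = ℂ` it says that `M` is hermitian of signature `(n + 1, 1)`. Lattices in
almost connected Lie groups satisfy the Farrell–Jones conjecture, so it holds for `O(M)(ℤ[x_1, …, x_k])` and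
`U(M)(O[x_1, …, x_k])`. The same holds with `ℤ` replaced by `ℚ` or another field `k` for which the linear
groups over `k` satisfy the conjecture.

Outline of the proof. Let `R = K[x_i]`, let `F` be its field of fractions and `ν` the discrete valuation of
`F` given by minus the total degree.

* There is no cancellation of degrees in an anisotropic form `h₀` over `K`: `ν(h₀(v)) = 2 min ν(v_i)`. (The
  homogeneous components of top degree do not vanish simultaneously at some point with `σ`-fixed
  coordinates.)
* The norms `α_m(x) = min(2ν(x_e) - m, 2ν(x_f) + m, 2ν(x_w))`, `m ∈ ℤ`, on the space `F e ⊕ F f ⊕ F^n` and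
  their translates by the unipotent isometries `u(w, z)`, `z + σ(z) = -h₀(w, w)`, are the vertices of a
  graph; two norms are adjacent if they are different and differ by at most one. The equation
  `u(w, z) α_m = α_m` holds if and only if `ν(z) ≥ m`. The whole isometry group permutes these norms and
  preserves the parity of `m` (this uses only the isometries that fix the line of `e`, and the exchange of
  `e` and `f`, which maps `u(w, z) α_m` to `u(w/z, 1/z) α_{m - 2ν(z)}` when `ν(z) < m`). Every vertex has one
  neighbour of lower level and the graph is a tree. Isometries that fix a vertex have bounded entries.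
* Elements of `U(M)(B[x_i])` of bounded degree in finitely many variables are detected by evaluation at
  finitely many points with `σ`-fixed coordinates in `B`. So every finitely generated subgroup of
  `U(M)(B[x_i])` embeds in the semidirect product of a free group with a finite power of `U(M)(B)` which
  permutes a basis, by the theorem on groups acting on trees of `Pool.Agent.K4H2.GT.Tree`.
-/

set_option autoImplicit false

namespace Pool.Agent.Results.MP_b6f35e_al.IsometryGroupsPolynomialRings

open Pool.Agent.Y110.FJ

/-- The group of the isometries of the sesquilinear form with matrix `M`: the invertible matrices `g`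
with `σ(g)ᵀ M g = M`. -/
def U {R ι : Type} [CommRing R] [Fintype ι] [DecidableEq ι] (σ : R →+* R) (M : Matrix ι ι R) :
    Subgroup (GL ι R) := Pool.Agent.K4H2.GT.UG σ M

theorem mem_U {R ι : Type} [CommRing R] [Fintype ι] [DecidableEq ι] (σ : R →+* R) (M : Matrix ι ι R)
    (g : GL ι R) : g ∈ U σ M ↔ ((g : Matrix ι ι R).map σ).transpose * M * (g : Matrix ι ι R) = M := Iff.rfl

/-- Over the field `K` with the involution `σ` the form with matrix `N` is isometric to the orthogonal sum
of a hyperbolic plane and an anisotropic hermitian form, whose matrix is `J`. -/
def WittIndexOne {K : Type} [Field K] (σ : K →+* K) {n : ℕ} (N : Matrix (Fin 2 ⊕ Fin n) (Fin 2 ⊕ Fin n) K) :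
    Prop :=
  ∃ (J : Matrix (Fin n) (Fin n) K) (P : GL (Fin 2 ⊕ Fin n) K),
    (∀ i j, σ (J i j) = J j i) ∧ (∀ v : Fin n → K, v ≠ 0 → ∑ i, ∑ j, σ (v i) * J i j * v j ≠ 0) ∧
    ((P : Matrix (Fin 2 ⊕ Fin n) (Fin 2 ⊕ Fin n) K).map σ).transpose * N *
      (P : Matrix (Fin 2 ⊕ Fin n) (Fin 2 ⊕ Fin n) K) = Matrix.fromBlocks !![0, 1; 1, 0] 0 0 J

/-- Let `C` be a class of groups with the closure properties `ClosedE C` of the class of the groups that
satisfy the Farrell–Jones conjecture. Let `B` be an infinite integral domain with an involution `s`,
possibly trivial, contained in a field `K` with an involution `sK` that extends `s`, and let `M` be a matrix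
over `B` whose form has Witt index one over `K` in the sense of `WittIndexOne`. If the isometry group of `M`
over `B` is in `C`, then the isometry group of `M` over the polynomial ring `B[x_i, i ∈ I]` is in `C` for
every set `I`. -/
theorem result (C : ∀ (G : Type) [Group G], Prop) (hC : ClosedE C) (B : Type) [CommRing B] [IsDomain B]
    [Infinite B] (s : B →+* B) (hs : ∀ x, s (s x) = x) (K : Type) [Field K] (sK : K →+* K)
    (hsK : ∀ x, sK (sK x) = x) (a : B →+* K) (ha : Function.Injective a) (has : ∀ x, a (s x) = sK (a x))
    (n : ℕ) (M : Matrix (Fin 2 ⊕ Fin n) (Fin 2 ⊕ Fin n) B) (hM : WittIndexOne sK (M.map a))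
    (hB : C (U s M)) (I : Type) :
    C (U (MvPolynomial.map s : MvPolynomial I B →+* MvPolynomial I B) (M.map MvPolynomial.C)) := by
  obtain ⟨J, P, hJ, hJa, hP⟩ := hM
  exact Pool.Agent.K4H2.GT.hmain hC B s hs M K sK hsK a ha has J hJ hJa P hP hB I

end Pool.Agent.Results.MP_b6f35e_al.IsometryGroupsPolynomialRings
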