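import Pool.Agent.K4H37.KU.Fam

/-!
# Generation of projective class groups of group rings by subgroups: a compactness theorem

For a class `C` of groups closed under homomorphic images (finite groups, virtually cyclic groups,
...) and a ring `R`, the generation of `K_0(RG)` by the images of the groups `K_0(RF)`, `F ≤ G` in
`C`, for all groups `G` is equivalent to the same for finitely presented groups, for one countable
group `W`, and to a uniform version with finitely many building blocks. For `C` the finite groups and
`R` regular with `ℚ ⊆ R` this generation is the surjectivity statement in degree `0` of the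
Farrell–Jones conjecture.
-/

set_option autoImplicit false

namespace Pool.Agent.Results.MP_b6f35e_al.UniformInduction

open Matrix

/-- A class of groups closed under homomorphic images. -/
def QuotientClosed (C : ∀ (F : Type) [Group F], Prop) : Prop :=
  ∀ (F Q : Type) [Group F] [Group Q] (f : F →* Q), Function.Surjective f → C F → C Q

/-- The idempotent matrix `E` over `RG` is stably induced from subgroups in `C`: there are finitely
many subgroups `F i ≤ G` in `C`, idempotent matrices `e i` over `R[F i]` and a number `k` such that
the projective modules given by `E ⊕ 1_k` and by the block diagonal matrix of the images of the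
`e i` over `RG` are isomorphic, the isomorphism being given by `X` and `Y`. -/
def StablyInduced (C : ∀ (F : Type) [Group F], Prop) {R G : Type} [Ring R] [Group G] {n : ℕ}
    (E : Matrix (Fin n) (Fin n) (MonoidAlgebra R G)) : Prop :=
  ∃ (k t : ℕ) (F : Fin t → Subgroup G) (m : Fin t → ℕ)
    (e : ∀ i, Matrix (Fin (m i)) (Fin (m i)) (MonoidAlgebra R (F i)))
    (X : Matrix (Fin n ⊕ Fin k) (Σ i, Fin (m i)) (MonoidAlgebra R G))
    (Y : Matrix (Σ i, Fin (m i)) (Fin n ⊕ Fin k) (MonoidAlgebra R G)),
    (∀ i, C (F i)) ∧ (∀ i, e i * e i = e i) ∧ X * Y = Matrix.fromBlocks E 0 0 1 ∧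
      Y * X = Matrix.blockDiagonal' fun i =>
        (e i).map (MonoidAlgebra.mapDomainRingHom R (F i).subtype)

/-- `K_0(RG)` is generated by the images of the groups `K_0(RF)`, where `F` runs through the subgroups
of `G` in the class `C`. -/
def KZeroGenerated (R G : Type) [Ring R] [Group G] (C : ∀ (F : Type) [Group F], Prop) : Prop :=
  ∀ (n : ℕ) (E : Matrix (Fin n) (Fin n) (MonoidAlgebra R G)), E * E = E → StablyInduced C E

/-- `X` is a sum of at most `N` matrices which have one nonzero entry `s g`, where `s ∈ S` and
`g ∈ G`. -/
def SumOfMonomials {R G κ ι : Type} [Ring R] [Group G] [DecidableEq κ] [DecidableEq ι] (N : ℕ)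
    (S : Finset R) (X : Matrix κ ι (MonoidAlgebra R G)) : Prop :=
  ∃ L : List (κ × ι × R × G), L.length ≤ N ∧ (∀ t ∈ L, t.2.2.1 ∈ S) ∧
    X = (L.map fun t => Matrix.single t.1 t.2.1 (MonoidAlgebra.single t.2.2.2 t.2.2.1 :
      MonoidAlgebra R G)).sum

/-- A certificate of size `N` with coefficients in `S` and building blocks `(F i, e i)`: after adding
`1_k`, `k ≤ N`, the idempotent matrix `E` is equivalent to a block diagonal matrix with at most `N`
blocks, which are images of building blocks `e i` under homomorphisms `F i → G`, and the matrices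
`X` and `Y` which give the equivalence are sums of at most `N` monomial matrices with coefficients
in `S`. -/
def Certificate {R G : Type} [Ring R] [Group G] {ι : Type} (F : ι → Type) [∀ i, Group (F i)]
    (m : ι → ℕ) (e : ∀ i, Matrix (Fin (m i)) (Fin (m i)) (MonoidAlgebra R (F i))) (N : ℕ)
    (S : Finset R) {n : ℕ} (E : Matrix (Fin n) (Fin n) (MonoidAlgebra R G)) : Prop :=
  ∃ (k t : ℕ) (u : Fin t → ι) (α : ∀ i, F (u i) →* G)
    (X : Matrix (Fin n ⊕ Fin k) (Σ i, Fin (m (u i))) (MonoidAlgebra R G))
    (Y : Matrix (Σ i, Fin (m (u i))) (Fin n ⊕ Fin k) (MonoidAlgebra R G)),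
    k ≤ N ∧ t ≤ N ∧ SumOfMonomials N S X ∧ SumOfMonomials N S Y ∧
      X * Y = Matrix.fromBlocks E 0 0 1 ∧
      Y * X = Matrix.blockDiagonal' fun i =>
        (e (u i)).map (MonoidAlgebra.mapDomainRingHom R (α i))

/-- `W` is the restricted direct product of the groups `⟨Fin r | S⟩`, for all finite sets `S` of
words: there is an isomorphism of `W` with the group of the families of elements of these groups,
indexed by the pairs `(r, S)`, which are `1` for all but finitely many pairs. -/
def IsProductOfFinitelyPresented (W : Type) [Group W] : Prop :=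
  ∃ i : W →* ∀ σ : (Σ r : ℕ, Finset (FreeGroup (Fin r))),
      PresentedGroup (σ.2 : Set (FreeGroup (Fin σ.1))),
    Function.Injective i ∧ Set.range i = {f | {σ | f σ ≠ 1}.Finite}

section bridge

open Pool.Agent.K4H37.KU

theorem ind_iff {C : ∀ (F : Type) [Group F], Prop} (hC : QuotientClosed C) {R G : Type} [Ring R]
    [Group G] {n : ℕ} (E : Matrix (Fin n) (Fin n) (MonoidAlgebra R G)) :
    StablyInduced C E ↔ Ind C E := by
  constructor
  · rintro ⟨k, t, F, m, e, X, Y, h1, h2, h3, h4⟩
    exact ⟨k, t, fun i => F i, inferInstance, m, e, fun i => (F i).subtype, X, Y, h1, h2, h3, h4⟩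
  · rintro ⟨k, t, F, _, m, e, α, X, Y, h1, h2, h3, h4⟩
    refine ⟨k, t, fun i => (α i).range, m, fun i => mm (α i).rangeRestrict (e i), X, Y,
      fun i => hC _ _ (α i).rangeRestrict (α i).rangeRestrict_surjective (h1 i), fun i => ?_, h3,
      ?_⟩
    · rw [← mm_mul, h2]
    · rw [h4]
      congr 1
      funext i
      change mm (α i) (e i) = mm (α i).range.subtype (mm (α i).rangeRestrict (e i))
      rw [mm_comp]
      rfl

theorem gen_iff {C : ∀ (F : Type) [Group F], Prop} (hC : QuotientClosed C) (R G : Type) [Ring R]
    [Group G] : KZeroGenerated R G C ↔ Gen R G C :=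
  forall_congr' fun _ => forall_congr' fun E => imp_congr Iff.rfl (ind_iff hC E)

end bridge

/-- There is a countable group `W`, the restricted direct product of all groups given by finite
presentations, such that for every ring `R` and every class `C` of groups closed under homomorphic
images the following are equivalent:

(1) for every group `G`, `K_0(RG)` is generated by the images of `K_0(RF)`, `F ≤ G` in `C`;

(2) this holds for the groups given by finite presentations;

(3) this holds for `G = W`;

(4) for every `s` and every finite `S ⊆ R` there are finitely many groups `F i` in `C`, idempotent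
matrices `e i` over `R[F i]`, a number `N` and a finite `S' ⊆ R` such that for every group `G` every
idempotent `n × n` matrix over `RG`, `n ≤ s`, which is a sum of at most `s` monomial matrices with
coefficients in `S` has a certificate of size `N` with coefficients in `S'` and building blocks
`(F i, e i)`. -/
theorem result :
    ∃ (W : Type) (_ : Group W), Countable W ∧ IsProductOfFinitelyPresented W ∧
      ∀ (R : Type) [Ring R] (C : ∀ (F : Type) [Group F], Prop), QuotientClosed C →
      [∀ (G : Type) [Group G], KZeroGenerated R G C,
        ∀ (r : ℕ) (T : Finset (FreeGroup (Fin r))),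
          KZeroGenerated R (PresentedGroup (T : Set (FreeGroup (Fin r)))) C,
        KZeroGenerated R W C,
        ∀ (s : ℕ) (S : Finset R),
          ∃ (ι : Type) (_ : Finite ι) (F : ι → Type) (_ : ∀ i, Group (F i)) (m : ι → ℕ)
            (e : ∀ i, Matrix (Fin (m i)) (Fin (m i)) (MonoidAlgebra R (F i))) (N : ℕ)
            (S' : Finset R), (∀ i, C (F i)) ∧ (∀ i, e i * e i = e i) ∧
            ∀ (G : Type) [Group G], ∀ n : ℕ, n ≤ s →
              ∀ E : Matrix (Fin n) (Fin n) (MonoidAlgebra R G), E * E = E →
                SumOfMonomials s S E → Certificate F m e N S' E].TFAE := by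
  open Pool.Agent.K4H37.KU in
  refine ⟨Uni, inferInstance, uni_countable, ⟨Uni.subtype, Uni.subtype_injective, ?_⟩, ?_⟩
  · rw [← MonoidHom.coe_range, Subgroup.range_subtype]
    rfl
  · intro R _ C hC
    tfae_have 1 → 2 := fun h r T => h _
    tfae_have 2 → 1 := fun h G _ => (gen_iff hC R G).2
      (gen_of_fp C (fun r T => (gen_iff hC R _).1 (h r T)) G)
    tfae_have 1 → 3 := fun h => h _
    tfae_have 3 → 2 := fun h r T => (gen_iff hC R _).2 (gen_of_uni C ((gen_iff hC R _).1 h) r T)
    tfae_have 2 → 4 := fun h s S =>
      gen_uniform C (fun r T => (gen_iff hC R _).1 (h r T)) s S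
    tfae_have 4 → 1 := by
      intro h G _
      refine (gen_iff hC R G).2 ?_
      intro n E hE
      obtain ⟨s, S, hs⟩ := exists_sumOf E
      obtain ⟨ι, _, F, iF, m, e, N, S', h1, h2, h3⟩ := h (n + s) S
      exact Ind.of_bcert h1 h2 (h3 G n (by omega) E hE
        (SumOf.mono hs (by omega) (Finset.Subset.refl S)))
    tfae_finish

end Pool.Agent.Results.MP_b6f35e_al.UniformInduction
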